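import Pool.Agent.Lib.MP_364230_h58.Numbers

/-!
# MP_364230_co: an approximate form of the inequality for bipartite graphs

For every finite bipartite graph with at least one edge, in particular for every nontrivial
connected bipartite graph, `12 f(G) ≥ 5 (p(G) + b(G)) + 8`, where `b(G)` is the order of `G`.
(The conjecture is `2 f(G) ≥ p(G) + b(G) + 1`.)  (helper58)
-/

set_option autoImplicit false

namespace Pool.Agent.Results.MP_364230_co.ApproxBipartite

open Pool.Agent.Lib.MP_364230_h58

/-- **Main result.** -/
theorem result : ∀ (V : Type) [Fintype V] (G : SimpleGraph V), (∃ u v, G.Adj u v) →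
    G.Colorable 2 → 5 * (pathCoverNumber G + bipartiteNumber G) + 8 ≤ 12 * forestNumber G := by
  intro V _ G he hG
  have h1 := main_bip G he hG _ _ (path_le G) (le_forest G)
  have h2 := bip_le G
  omega

end Pool.Agent.Results.MP_364230_co.ApproxBipartite
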