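import Pool.Agent.Lib.MP_364230_h58.Numbers

/-!
# MP_364230_co: an approximate form of the inequality for all graphs

For every finite graph with at least one edge, in particular for every nontrivial connected graph,
`5 f(G) ≥ 2 (p(G) + b(G) + 2)`.  (The conjecture is `2 f(G) ≥ p(G) + b(G) + 1`.)  (helper58)
-/

set_option autoImplicit false

namespace Pool.Agent.Results.MP_364230_co.ApproxInequality

open Pool.Agent.Lib.MP_364230_h58

/-- **Main result.** -/
theorem result : ∀ (V : Type) [Fintype V] (G : SimpleGraph V), (∃ u v, G.Adj u v) →
    2 * (pathCoverNumber G + bipartiteNumber G + 2) ≤ 5 * forestNumber G := by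
  intro V _ G he
  exact main G he _ _ _ (path_le G) (exists_bip G) (le_forest G)

end Pool.Agent.Results.MP_364230_co.ApproxInequality
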