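import Pool.Agent.Lib.MP_364230_h58.Tw

/-!
# MP_364230_co: the inequality holds for graphs of treewidth at most two

For every finite graph of treewidth at most two (equivalently, without a `K_4` minor: series-parallel
graphs, outerplanar graphs, cactus graphs) with at least one edge `2 f(G) ≥ p(G) + b(G) + 1`.
(helper58)
-/

set_option autoImplicit false

namespace Pool.Agent.Results.MP_364230_co.TreewidthTwo

open Pool.Agent.Lib.MP_364230_h58

/-- **Main result.** -/
theorem result : ∀ (V : Type) [Fintype V] (G : SimpleGraph V), (∃ u v, G.Adj u v) →
    TreewidthLeTwo G → pathCoverNumber G + bipartiteNumber G + 1 ≤ 2 * forestNumber G := by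
  intro V _ G he hG
  exact criterion G he (treewidth_big hG)

end Pool.Agent.Results.MP_364230_co.TreewidthTwo
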